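import Pool.Agent.Run7.h350.FK.Iface

/-!
# Pieces CONV and CONVINF of the project FK (MP_bbe01f_an): the converse direction
-/

set_option autoImplicit false

namespace Run7.h646.FK

open Pool.Agent.Run7.h350.FK MeasureTheory Set Topology
open scoped ENNReal NNReal

/-- Cauchy's estimate for the radial derivative -/
lemma cauchy (hANA : S_ANA) {n : ℕ} {h : CE n → ℂ} (hh : Ent h) (z : CE n) (r M : ℝ) (hr : 0 < r)
    (hM : ∀ w, ‖w - z‖ ≤ r → ‖h w‖ ≤ M) : ‖rad h z‖ ≤ ‖z‖ / r * M := by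
  rw [(hANA n h hh).2.1 z]
  rcases eq_or_ne z 0 with rfl | hz
  · simp
  · have hz0 : 0 < ‖z‖ := norm_pos_iff.mpr hz
    have hdiff : Differentiable ℂ h := fun w => (hh w (mem_univ w)).differentiableAt
    have hg : HasDerivAt (fun l : ℂ => h (z + l • z)) (fderiv ℂ h z z) 0 := by
      have h1 : HasDerivAt (fun l : ℂ => z + l • z) z 0 := by
        simpa using ((hasDerivAt_id (0 : ℂ)).smul_const z).const_add z
      have h2 : HasFDerivAt h (fderiv ℂ h z) (z + (0 : ℂ) • z) := by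
        simpa using (hdiff z).hasFDerivAt
      exact h2.comp_hasDerivAt 0 h1
    have hd : Differentiable ℂ (fun l : ℂ => h (z + l • z)) := by
      apply hdiff.comp
      fun_prop
    have h3 : ‖deriv (fun l : ℂ => h (z + l • z)) 0‖ ≤ M / (r / ‖z‖) := by
      apply Complex.norm_deriv_le_of_forall_mem_sphere_norm_le (by positivity)
      · exact hd.diffContOnCl
      · intro l hl
        apply hM
        rw [mem_sphere_zero_iff_norm] at hl
        have : z + l • z - z = l • z := by abel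
        rw [this, norm_smul, hl]
        apply le_of_eq
        field_simp
    rw [hg.deriv] at h3
    refine h3.trans (le_of_eq ?_)
    field_simp

lemma rad_pt (hANA : S_ANA) {n : ℕ} {q : ℝ} (hq : 0 < q) {C : ℝ≥0}
    (hC : ∀ g : CE n → ℂ, Ent g → ∀ (a : CE n) (r : ℝ), 0 < r →
      ‖g a‖ₑ ^ q * volume (Metric.ball a r) ≤ C * ∫⁻ z in Metric.ball a r, ‖g z‖ₑ ^ q)
    {h : CE n → ℂ} (hh : Ent h) (z : CE n) (r : ℝ) (hr : 0 < r) :
    ‖rad h z‖ₑ ^ q * volume (Metric.ball z r) ≤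
      ENNReal.ofReal ((‖z‖ / r) ^ q) * (C * ∫⁻ y in Metric.ball z (2 * r), ‖h y‖ₑ ^ q) := by
  have hcont : Continuous h :=
    (show Differentiable ℂ h from fun w => (hh w (mem_univ w)).differentiableAt).continuous
  obtain ⟨w, hw, hmax⟩ := (isCompact_closedBall z r).exists_isMaxOn
    ⟨z, Metric.mem_closedBall_self hr.le⟩ (hcont.norm.continuousOn (s := Metric.closedBall z r))
  have h1 : ‖rad h z‖ ≤ ‖z‖ / r * ‖h w‖ := by
    apply cauchy hANA hh z r _ hr
    intro u hu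
    exact hmax (by rw [Metric.mem_closedBall, dist_eq_norm]; exact hu)
  have hzr : 0 ≤ ‖z‖ / r := by positivity
  have h2 : ‖rad h z‖ₑ ≤ ENNReal.ofReal (‖z‖ / r) * ‖h w‖ₑ := by
    rw [← ofReal_norm, ← ofReal_norm, ← ENNReal.ofReal_mul hzr]
    exact ENNReal.ofReal_le_ofReal h1
  have h3 : ‖rad h z‖ₑ ^ q ≤ ENNReal.ofReal ((‖z‖ / r) ^ q) * ‖h w‖ₑ ^ q := by
    refine (ENNReal.rpow_le_rpow h2 hq.le).trans (le_of_eq ?_)
    rw [ENNReal.mul_rpow_of_nonneg _ _ hq.le, ENNReal.ofReal_rpow_of_nonneg hzr hq.le]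
  have h4 : volume (Metric.ball z r) = volume (Metric.ball w r) := by
    rw [Measure.addHaar_ball_center (volume : Measure (CE n)) z r,
      Measure.addHaar_ball_center (volume : Measure (CE n)) w r]
  have h5 : Metric.ball w r ⊆ Metric.ball z (2 * r) := by
    apply Metric.ball_subset_ball'
    rw [Metric.mem_closedBall] at hw
    linarith
  calc ‖rad h z‖ₑ ^ q * volume (Metric.ball z r)
      ≤ (ENNReal.ofReal ((‖z‖ / r) ^ q) * ‖h w‖ₑ ^ q) * volume (Metric.ball w r) := by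
        rw [h4]; gcongr
    _ = ENNReal.ofReal ((‖z‖ / r) ^ q) * (‖h w‖ₑ ^ q * volume (Metric.ball w r)) := by ring
    _ ≤ ENNReal.ofReal ((‖z‖ / r) ^ q) * (C * ∫⁻ y in Metric.ball w r, ‖h y‖ₑ ^ q) := by
        exact mul_le_mul' le_rfl (hC h hh w r hr)
    _ ≤ _ := by
        gcongr

theorem t_CONVINF (hANA : S_ANA) : S_CONVINF := by
  intro n s α C hα h hh hb
  have hC : 0 ≤ C := by
    have := hb 0
    simp at this
    exact (norm_nonneg _).trans this
  refine ⟨2 * (C * 4 ^ s * Real.exp (α / 2 * 3)), fun z => ?_⟩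
  set t := ‖z‖ with ht
  have ht0 : 0 ≤ t := norm_nonneg z
  have hr : 0 < 1 / (1 + t) := by positivity
  have hrt : 1 / (1 + t) * t ≤ 1 := by
    rw [one_div, inv_mul_le_iff₀ (by positivity)]; linarith
  have hr1 : 1 / (1 + t) ≤ 1 := by
    rw [div_le_one (by positivity)]; linarith
  have h1 := cauchy hANA hh z (1 / (1 + t))
    (C * 4 ^ s * Real.exp (α / 2 * 3) * ((1 + t ^ 2) ^ s * Real.exp (α / 2 * t ^ 2))) hr ?_
  · refine h1.trans ?_
    have h2 : t / (1 / (1 + t)) ≤ 2 * (1 + t ^ 2) := by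
      rw [div_div_eq_mul_div, div_one]
      nlinarith [sq_nonneg (t - 1)]
    have h3 : 0 ≤ C * 4 ^ s * Real.exp (α / 2 * 3) * ((1 + t ^ 2) ^ s * Real.exp (α / 2 * t ^ 2)) := by
      positivity
    calc _ ≤ 2 * (1 + t ^ 2) * (C * 4 ^ s * Real.exp (α / 2 * 3) *
          ((1 + t ^ 2) ^ s * Real.exp (α / 2 * t ^ 2))) := mul_le_mul_of_nonneg_right h2 h3
      _ = _ := by rw [pow_succ]; ring
  · intro w hw
    have hwt : ‖w‖ ≤ t + 1 / (1 + t) := by
      have : ‖w‖ ≤ ‖z‖ + ‖w - z‖ := by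
        have e : w = z + (w - z) := by abel
        calc ‖w‖ = ‖z + (w - z)‖ := by rw [← e]
          _ ≤ _ := norm_add_le _ _
      linarith
    have hw2 : ‖w‖ ^ 2 ≤ t ^ 2 + 3 := by
      have h0 : 0 ≤ ‖w‖ := norm_nonneg w
      have : ‖w‖ ^ 2 ≤ (t + 1 / (1 + t)) ^ 2 := by gcongr
      nlinarith
    calc ‖h w‖ ≤ C * (1 + ‖w‖ ^ 2) ^ s * Real.exp (α / 2 * ‖w‖ ^ 2) := hb w
      _ ≤ C * (4 * (1 + t ^ 2)) ^ s * Real.exp (α / 2 * (t ^ 2 + 3)) := by
        gcongr
        nlinarith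
      _ = _ := by
        rw [mul_pow, mul_add, Real.exp_add]; ring

/-- comparison of the weights at nearby points -/
lemma weight_cmp (β σ : ℝ) (hβ : 0 < β) (hσ : 0 ≤ σ) (t u : ℝ) (ht : 0 ≤ t) (hu : 0 ≤ u)
    (h : u ≤ t + 2 / (1 + t)) :
    (1 + t ^ 2) ^ (-σ) * Real.exp (-β * t ^ 2) ≤
      9 ^ σ * Real.exp (β * 8) * ((1 + u ^ 2) ^ (-σ) * Real.exp (-β * u ^ 2)) := by
  have hr1 : 1 / (1 + t) ≤ 1 := by
    rw [div_le_one (by positivity)]; linarith
  have hr0 : 0 < 1 / (1 + t) := by positivity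
  have hrt : 1 / (1 + t) * t ≤ 1 := by
    rw [one_div, inv_mul_le_iff₀ (by positivity)]; linarith
  have h' : u ≤ t + 2 * (1 / (1 + t)) := by
    have e : 2 / (1 + t) = 2 * (1 / (1 + t)) := by ring
    linarith
  have hu2 : u ^ 2 ≤ t ^ 2 + 8 := by
    have : u ^ 2 ≤ (t + 2 * (1 / (1 + t))) ^ 2 := by gcongr
    nlinarith
  have h1 : Real.exp (-β * t ^ 2) ≤ Real.exp (β * 8) * Real.exp (-β * u ^ 2) := by
    rw [← Real.exp_add]
    apply Real.exp_le_exp.mpr
    nlinarith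
  have h2 : (1 + t ^ 2) ^ (-σ) ≤ 9 ^ σ * (1 + u ^ 2) ^ (-σ) := by
    have h3 : (9 * (1 + t ^ 2)) ^ (-σ) ≤ (1 + u ^ 2) ^ (-σ) := by
      apply Real.rpow_le_rpow_of_nonpos (by positivity)
      · nlinarith
      · linarith
    have h4 : (9 * (1 + t ^ 2)) ^ (-σ) = 9 ^ (-σ) * (1 + t ^ 2) ^ (-σ) :=
      Real.mul_rpow (by norm_num) (by positivity)
    have h5 : (9 : ℝ) ^ σ * 9 ^ (-σ) = 1 := by
      rw [← Real.rpow_add (by norm_num)]; simp
    calc (1 + t ^ 2) ^ (-σ) = (9 ^ σ * 9 ^ (-σ)) * (1 + t ^ 2) ^ (-σ) := by rw [h5, one_mul]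
      _ = 9 ^ σ * (9 * (1 + t ^ 2)) ^ (-σ) := by rw [h4]; ring
      _ ≤ _ := by gcongr
  calc (1 + t ^ 2) ^ (-σ) * Real.exp (-β * t ^ 2)
      ≤ (9 ^ σ * (1 + u ^ 2) ^ (-σ)) * (Real.exp (β * 8) * Real.exp (-β * u ^ 2)) := by gcongr
    _ = _ := by ring

theorem t_CONV (hANA : S_ANA) (hMVQ : S_MVQ) : S_CONV := by
  intro n hn q β σ hq hβ hσ h hh hfin
  obtain ⟨C, hC⟩ := hMVQ n hn q hq
  have hcont : Continuous h :=
    (show Differentiable ℂ h from fun w => (hh w (mem_univ w)).differentiableAt).continuous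
  set v : ℝ≥0∞ := volume (Metric.ball (0 : CE n) 1) with hv
  have hv0 : v ≠ 0 := (Metric.measure_ball_pos volume _ one_pos).ne'
  have hvt : v ≠ ∞ := measure_ball_lt_top.ne
  set D : ℕ := Module.finrank ℝ (CE n) with hD
  have hvol : ∀ (x : CE n) (r : ℝ), 0 < r → volume (Metric.ball x r) = ENNReal.ofReal (r ^ D) * v := by
    intro x r hr
    exact Measure.addHaar_ball_of_pos volume x hr
  -- the weight
  set W : CE n → ℝ≥0∞ := fun y =>
    ENNReal.ofReal ((1 + ‖y‖ ^ 2) ^ (-σ) * Real.exp (-β * ‖y‖ ^ 2)) with hW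
  set c₁ : ℝ := 2 ^ q * (9 ^ σ * Real.exp (β * 8)) * 3 ^ D with hc₁
  have hc₁0 : 0 ≤ c₁ := by positivity
  set Φ : CE n → ℝ≥0∞ := fun y =>
    ENNReal.ofReal (c₁ * (1 + ‖y‖) ^ D) * v⁻¹ * C * (W y * ‖h y‖ₑ ^ q) with hΦ
  set S : Set (CE n × CE n) := {p | dist p.1 p.2 < 6 / (1 + ‖p.2‖)} with hS
  have hSo : IsOpen S := by
    apply isOpen_lt (by fun_prop)
    apply Continuous.div (by fun_prop) (by fun_prop)
    intro p
    positivity
  have hWm : Measurable W := by
    apply ENNReal.measurable_ofReal.comp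
    apply Measurable.mul
    · exact (measurable_const.add (measurable_norm.pow_const 2)).pow_const _
    · exact Real.measurable_exp.comp ((measurable_norm.pow_const 2).const_mul _)
  have hΦm : Measurable Φ := by
    apply Measurable.mul
    · apply Measurable.mul_const
      apply Measurable.mul_const
      apply ENNReal.measurable_ofReal.comp
      exact ((measurable_const.add measurable_norm).pow_const D).const_mul _
    · apply hWm.mul
      exact (hcont.measurable.enorm).pow_const q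
  -- pointwise bound
  have hpt : ∀ z : CE n,
      ENNReal.ofReal ((1 + ‖z‖ ^ 2) ^ (-σ - q) * Real.exp (-β * ‖z‖ ^ 2)) * ‖rad h z‖ₑ ^ q ≤
        ∫⁻ y, S.indicator (fun p => Φ p.2) (z, y) := by
    intro z
    set t := ‖z‖ with ht
    have ht0 : 0 ≤ t := norm_nonneg z
    set r : ℝ := 1 / (1 + t) with hr
    have hr0 : 0 < r := by positivity
    have hrad := rad_pt hANA hq hC hh z r hr0
    rw [hvol z r hr0] at hrad
    have hrD : 0 < r ^ D := by positivity
    have hvr0 : ENNReal.ofReal (r ^ D) * v ≠ 0 :=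
      mul_ne_zero (by rw [ne_eq, ENNReal.ofReal_eq_zero]; linarith) hv0
    have hvrt : ENNReal.ofReal (r ^ D) * v ≠ ∞ := ENNReal.mul_ne_top ENNReal.ofReal_ne_top hvt
    have h1 : ‖rad h z‖ₑ ^ q ≤ ENNReal.ofReal ((t / r) ^ q) *
        (C * ∫⁻ y in Metric.ball z (2 * r), ‖h y‖ₑ ^ q) * (ENNReal.ofReal (r ^ D) * v)⁻¹ := by
      rw [← div_eq_mul_inv]
      exact (ENNReal.le_div_iff_mul_le (Or.inl hvr0) (Or.inl hvrt)).mpr hrad
    have h2 : (ENNReal.ofReal (r ^ D) * v)⁻¹ = ENNReal.ofReal ((1 + t) ^ D) * v⁻¹ := by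
      rw [ENNReal.mul_inv (Or.inr hvt) (Or.inr hv0), ← ENNReal.ofReal_inv_of_pos hrD, hr]
      congr 2
      rw [one_div, inv_pow, inv_inv]
    rw [h2] at h1
    have h3 : (t / r) ^ q ≤ 2 ^ q * (1 + t ^ 2) ^ q := by
      rw [← Real.mul_rpow (by norm_num) (by positivity)]
      apply Real.rpow_le_rpow (by positivity) _ hq.le
      rw [hr, div_div_eq_mul_div, div_one]
      nlinarith [sq_nonneg (t - 1)]
    have h4 : (1 + t ^ 2) ^ (-σ - q) * (1 + t ^ 2) ^ q = (1 + t ^ 2) ^ (-σ) := by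
      rw [← Real.rpow_add (by positivity)]
      congr 1
      ring
    -- collect the factors depending on z only
    have h5 : ENNReal.ofReal ((1 + t ^ 2) ^ (-σ - q) * Real.exp (-β * t ^ 2)) * ‖rad h z‖ₑ ^ q ≤
        ENNReal.ofReal (2 ^ q * ((1 + t ^ 2) ^ (-σ) * Real.exp (-β * t ^ 2)) * (1 + t) ^ D) * v⁻¹ * C *
          ∫⁻ y in Metric.ball z (2 * r), ‖h y‖ₑ ^ q := by
      calc _ ≤ ENNReal.ofReal ((1 + t ^ 2) ^ (-σ - q) * Real.exp (-β * t ^ 2)) *
            (ENNReal.ofReal (2 ^ q * (1 + t ^ 2) ^ q) *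
              (C * ∫⁻ y in Metric.ball z (2 * r), ‖h y‖ₑ ^ q) * (ENNReal.ofReal ((1 + t) ^ D) * v⁻¹)) := by
            refine mul_le_mul' le_rfl (h1.trans ?_)
            refine mul_le_mul' (mul_le_mul' (ENNReal.ofReal_le_ofReal h3) le_rfl) le_rfl
        _ = ENNReal.ofReal ((1 + t ^ 2) ^ (-σ - q) * Real.exp (-β * t ^ 2)) *
            ENNReal.ofReal (2 ^ q * (1 + t ^ 2) ^ q) * ENNReal.ofReal ((1 + t) ^ D) * v⁻¹ * C *
              ∫⁻ y in Metric.ball z (2 * r), ‖h y‖ₑ ^ q := by ring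
        _ = _ := by
            rw [← ENNReal.ofReal_mul (by positivity), ← ENNReal.ofReal_mul (by positivity)]
            congr 4
            rw [← h4]
            ring
    refine h5.trans ?_
    rw [← lintegral_const_mul' _ _ (by
      refine ENNReal.mul_ne_top (ENNReal.mul_ne_top ENNReal.ofReal_ne_top ?_) ENNReal.coe_ne_top
      exact ENNReal.inv_ne_top.mpr hv0)]
    rw [← lintegral_indicator Metric.isOpen_ball.measurableSet]
    apply lintegral_mono
    intro y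
    by_cases hy : y ∈ Metric.ball z (2 * r)
    · rw [Set.indicator_of_mem hy]
      rw [Metric.mem_ball, dist_eq_norm] at hy
      set u := ‖y‖ with hu
      have hu0 : 0 ≤ u := norm_nonneg y
      have hut : u ≤ t + 2 * r := by
        have : ‖y‖ ≤ ‖z‖ + ‖y - z‖ := by
          have e : y = z + (y - z) := by abel
          calc ‖y‖ = ‖z + (y - z)‖ := by rw [← e]
            _ ≤ _ := norm_add_le _ _
        linarith
      have htu : t ≤ u + 2 * r := by
        have : ‖z‖ ≤ ‖y‖ + ‖y - z‖ := by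
          have e : z = y - (y - z) := by abel
          calc ‖z‖ = ‖y - (y - z)‖ := by rw [← e]
            _ ≤ _ := norm_sub_le _ _
        linarith
      have hr1 : r ≤ 1 := by
        rw [hr, div_le_one (by positivity)]; linarith
      have hmem : (z, y) ∈ S := by
        show dist z y < 6 / (1 + ‖y‖)
        rw [dist_comm, dist_eq_norm]
        refine hy.trans_le ?_
        rw [hr, mul_one_div, div_le_div_iff₀ (by positivity) (by positivity)]
        nlinarith
      show _ ≤ S.indicator (fun p => Φ p.2) (z, y)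
      rw [Set.indicator_of_mem hmem]
      show _ ≤ ENNReal.ofReal (c₁ * (1 + ‖y‖) ^ D) * v⁻¹ * C * (W y * ‖h y‖ₑ ^ q)
      rw [← hu]
      have hw := weight_cmp β σ hβ hσ t u ht0 hu0 (by
        have e : 2 / (1 + t) = 2 * r := by rw [hr]; ring
        rw [e]; exact hut)
      have h6 : (1 + t) ^ D ≤ 3 ^ D * (1 + u) ^ D := by
        rw [← mul_pow]
        gcongr
        linarith
      have h7 : 2 ^ q * ((1 + t ^ 2) ^ (-σ) * Real.exp (-β * t ^ 2)) * (1 + t) ^ D ≤
          (c₁ * (1 + u) ^ D) * ((1 + u ^ 2) ^ (-σ) * Real.exp (-β * u ^ 2)) := by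
        calc _ ≤ 2 ^ q * (9 ^ σ * Real.exp (β * 8) * ((1 + u ^ 2) ^ (-σ) * Real.exp (-β * u ^ 2))) *
              (3 ^ D * (1 + u) ^ D) := by gcongr
          _ = _ := by rw [hc₁]; ring
      calc _ ≤ ENNReal.ofReal ((c₁ * (1 + u) ^ D) * ((1 + u ^ 2) ^ (-σ) * Real.exp (-β * u ^ 2))) *
            v⁻¹ * C * ‖h y‖ₑ ^ q := by
            refine mul_le_mul' (mul_le_mul' (mul_le_mul' (ENNReal.ofReal_le_ofReal h7) le_rfl)
              le_rfl) le_rfl
        _ = _ := by
            rw [ENNReal.ofReal_mul (by positivity)]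
            show _ * W y * v⁻¹ * C * ‖h y‖ₑ ^ q = _
            ring
    · rw [Set.indicator_of_notMem hy]
      exact zero_le
  -- Tonelli
  have hmeasF : Measurable (S.indicator (fun p : CE n × CE n => Φ p.2)) :=
    (hΦm.comp measurable_snd).indicator hSo.measurableSet
  have htotal : ∫⁻ z, ∫⁻ y, S.indicator (fun p => Φ p.2) (z, y) ≤
      ENNReal.ofReal (c₁ * 6 ^ D) * C * ∫⁻ y, W y * ‖h y‖ₑ ^ q := by
    rw [lintegral_lintegral_swap (f := fun z y => S.indicator (fun p => Φ p.2) (z, y))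
      hmeasF.aemeasurable]
    rw [← lintegral_const_mul' _ _ (ENNReal.mul_ne_top ENNReal.ofReal_ne_top ENNReal.coe_ne_top)]
    apply lintegral_mono
    intro y
    have e1 : ∀ z, S.indicator (fun p => Φ p.2) (z, y) =
        (Metric.ball y (6 / (1 + ‖y‖))).indicator (fun _ => Φ y) z := by
      intro z
      by_cases hz : z ∈ Metric.ball y (6 / (1 + ‖y‖))
      · rw [Set.indicator_of_mem hz]
        have : (z, y) ∈ S := hz
        rw [Set.indicator_of_mem this]
      · rw [Set.indicator_of_notMem hz]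
        have : (z, y) ∉ S := hz
        rw [Set.indicator_of_notMem this]
    simp_rw [e1]
    rw [lintegral_indicator_const Metric.isOpen_ball.measurableSet, hvol _ _ (by positivity)]
    have e2 : ENNReal.ofReal (c₁ * (1 + ‖y‖) ^ D) * ENNReal.ofReal ((6 / (1 + ‖y‖)) ^ D) =
        ENNReal.ofReal (c₁ * 6 ^ D) := by
      rw [← ENNReal.ofReal_mul (by positivity)]
      congr 1
      rw [div_pow]
      field_simp
    show ENNReal.ofReal (c₁ * (1 + ‖y‖) ^ D) * v⁻¹ * C * (W y * ‖h y‖ₑ ^ q) *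
      (ENNReal.ofReal ((6 / (1 + ‖y‖)) ^ D) * v) ≤ _
    apply le_of_eq
    calc _ = (ENNReal.ofReal (c₁ * (1 + ‖y‖) ^ D) * ENNReal.ofReal ((6 / (1 + ‖y‖)) ^ D)) *
          (v⁻¹ * v) * C * (W y * ‖h y‖ₑ ^ q) := by ring
      _ = _ := by rw [e2, ENNReal.inv_mul_cancel hv0 hvt, mul_one]
  refine ne_top_of_le_ne_top ?_ ((lintegral_mono hpt).trans htotal)
  exact ENNReal.mul_ne_top (ENNReal.mul_ne_top ENNReal.ofReal_ne_top ENNReal.coe_ne_top) hfin

end Run7.h646.FK
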